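import Mathlib
import Pool.Agent.Q93.GS.Conc3

/-! A graded simple strongly graded ring with `C_R(R_e) = Z(R_e)` that is not simple. -/

set_option autoImplicit false

namespace Pool.Agent.Results.MP_eab7e5_al.StronglyGradedCounterexample

/-- The additive subgroups `C g` (`g` in the group `G`) are the homogeneous components of a `G`-grading of the
ring `R`: `R` is the direct sum of the `C g`, and `C g * C h ⊆ C (g * h)`. -/
structure IsGrading {G R : Type} [Group G] [Ring R] (C : G → AddSubgroup R) : Prop where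
  /-- every element is in exactly one way a finite sum of homogeneous elements -/
  decomp : ∀ r : R, ∃! c : G →₀ R, (∀ g, c g ∈ C g) ∧ c.sum (fun _ x => x) = r
  /-- the product of elements of degrees `g` and `h` has degree `g * h` -/
  mul_mem : ∀ g h : G, ∀ x ∈ C g, ∀ y ∈ C h, x * y ∈ C (g * h)

/-- strongly graded: `R_g R_h = R_{gh}`, where `R_g R_h` is the additive subgroup generated by the products -/
def IsStrong {G R : Type} [Group G] [Ring R] (C : G → AddSubgroup R) : Prop :=
  ∀ g h : G, AddSubgroup.closure {z | ∃ x ∈ C g, ∃ y ∈ C h, z = x * y} = C (g * h)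

/-- the two-sided ideal `I` is graded: it contains the homogeneous components of each of its elements -/
def IsGradedIdeal {G R : Type} [Group G] [Ring R] (C : G → AddSubgroup R) (I : TwoSidedIdeal R) : Prop :=
  ∀ c : G →₀ R, (∀ g, c g ∈ C g) → c.sum (fun _ x => x) ∈ I → ∀ g, c g ∈ I

/-- the centralizer `C_R(R_e)` of the component of degree `e` -/
def centralizerOne {G R : Type} [Group G] [Ring R] (C : G → AddSubgroup R) : Set R :=
  {r | ∀ a ∈ C 1, r * a = a * r}

/-- the centre `Z(R_e)` of the component of degree `e` -/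
def centreOne {G R : Type} [Group G] [Ring R] (C : G → AddSubgroup R) : Set R :=
  {r | r ∈ C 1 ∧ ∀ a ∈ C 1, r * a = a * r}

/-- There are a group `G` and a nonzero strongly `G`-graded ring `R` that is graded simple and satisfies
`C_R(R_e) = Z(R_e)`, but has a two-sided ideal other than `0` and `R`. -/
theorem result : ∃ (G : Type) (_ : Group G) (R : Type) (_ : Ring R) (C : G → AddSubgroup R),
    Nontrivial R ∧ IsGrading C ∧ IsStrong C ∧
      (∀ I : TwoSidedIdeal R, IsGradedIdeal C I → I = ⊥ ∨ I = ⊤) ∧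
      centralizerOne C = centreOne C ∧
      ∃ I : TwoSidedIdeal R, I ≠ ⊥ ∧ I ≠ ⊤ := by
  have hG := Pool.Agent.Q93.GS.isGrading Pool.Agent.Q93.GS.norm
  obtain ⟨I, h1, h2⟩ := Pool.Agent.Q93.GS.exists_ideal Pool.Agent.Q93.GS.norm Pool.Agent.Q93.GS.exV
  refine ⟨Pool.Agent.Q93.GS.GW, inferInstance, Pool.Agent.Q93.GS.RR Pool.Agent.Q93.GS.norm, inferInstance,
    Pool.Agent.Q93.GS.CC Pool.Agent.Q93.GS.norm, inferInstance, ⟨hG.decomp, hG.mul_mem⟩,
    Pool.Agent.Q93.GS.isStrong Pool.Agent.Q93.GS.norm,
    fun I hI => Pool.Agent.Q93.GS.gradedSimple Pool.Agent.Q93.GS.norm Pool.Agent.Q93.GS.invSimple I hI, ?_, I, h1, h2⟩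
  ext r
  exact ⟨fun hr => ⟨Pool.Agent.Q93.GS.central Pool.Agent.Q93.GS.norm Pool.Agent.Q93.GS.noComm r hr, hr⟩, fun hr => hr.2⟩

end Pool.Agent.Results.MP_eab7e5_al.StronglyGradedCounterexample
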